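import Pool.Agent.helper55.RI.Spec

set_option autoImplicit false

namespace Pool.Agent.RI

open Pool.Agent.helper62 Prog Function Pool.Agent.helper81.PL

theorem D4_min (N m : ℕ) : citer N m (fun y : ℕ => 2 * y) 1 = min (2 ^ m) N := by
  unfold citer
  induction m with
  | zero => rfl
  | succ m ih =>
    rw [iterate_succ_apply', ih]
    change min (2 * min (2 ^ m) N) N = _
    rw [pow_succ]
    omega

theorem D4_lng (i c : ℕ) (x : W) :
    lng i c x = leb (x.length + 1)
      (citer (x.length + 1) (uu i c x).length (fun y : ℕ => 2 * y) 1) := by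
  rw [D4_min]
  unfold lng leb
  rw [decide_eq_decide, Nat.lt_iff_add_one_le, le_min_iff]
  exact ⟨fun h => ⟨h, le_rfl⟩, fun h => h.1⟩

theorem D4 (hX9 : X9_stmt) (hK3 : K3_stmt) : D4_stmt := by
  intro i
  have h1 : PT (E i) := hX9.1 i
  have h2 : PT (fun p : ℕ × W => pre p.1 p.2) := hK3.1
  have h3 : PT (fun p : ℕ × W => uu i p.1 p.2) := by
    unfold uu
    refine PT.comp (f := fun p : ℕ × W => pre i (pre p.1 p.2)) h1 ?_
    exact PT.comp (f := fun p : ℕ × W => (i, pre p.1 p.2)) h2 (PT.pair (by fun_prop) h2)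
  have h4 : PT (fun p : W × ℕ => uu i p.2 p.1) :=
    PT.comp (f := fun p : W × ℕ => (p.2, p.1)) h3 (by fun_prop)
  have h5 : PT (fun p : W × ℕ => lng i p.2 p.1) := by
    simp only [D4_lng]
    fun_prop
  have h6 : PT (cm i) := by
    unfold cm
    fun_prop
  exact PT.comp (f := fun x : W => (cm i x, x)) h3 (by fun_prop)

end Pool.Agent.RI
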